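import Pool.Agent.Helper49.SO.Defs
import Pool.Agent.Helper65.UG.R10
import Pool.Agent.Helper90.UG.Arith

/-!
# SO11: the prime sum
-/

set_option autoImplicit false
open MeasureTheory Set Filter Topology
open Pool.Agent.Helper57.Zeta Pool.Agent.Helper57.LH Pool.Agent.Helper57.ED Pool.Agent.Helper54.LG
open Pool.Agent.Helper69.UG (XX Adm PR wt VV WP)
open Pool.Agent.Helper65.UG (cf SS_eq cf_bd int_wt adm_facts)

namespace Pool.Agent.Helper49.SO

/-- Coefficients of the prime sum. -/
noncomputable def cpr (X : ℝ) (n : ℕ) : ℝ :=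
  1 / Real.pi * (ArithmeticFunction.vonMangoldt n / (Real.sqrt n * Real.log n) * (1 - Real.log n / X) ^ 2)

lemma Pr_eq (X y : ℝ) : Pr X y = ∑ n ∈ Finset.Icc 1 ⌊Real.exp X⌋₊, cpr X n * Real.sin (y * Real.log n) := by
  unfold Pr cpr
  rw [Finset.mul_sum]
  have h : Finset.range (⌊Real.exp X⌋₊ + 1) = insert 0 (Finset.Icc 1 ⌊Real.exp X⌋₊) := by
    ext n
    simp only [Finset.mem_range, Finset.mem_insert, Finset.mem_Icc]
    omega
  rw [h, Finset.sum_insert (by simp)]
  simp only [ArithmeticFunction.map_zero, zero_div, zero_mul, mul_zero, zero_add]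
  refine Finset.sum_congr rfl fun n _ => ?_
  ring

lemma cpr_bd {X : ℝ} (hX : 0 < X) {n : ℕ} (hn : n ∈ Finset.Icc 1 ⌊Real.exp X⌋₊) :
    0 ≤ cpr X n ∧ cpr X n ≤ 1 / Real.pi ∧ (cpr X n ≠ 0 → Real.log 2 ≤ Real.log n) := by
  have hpi := Real.pi_pos
  obtain ⟨-, -, -, hlog⟩ := cf_bd hX hn
  rw [Finset.mem_Icc] at hn
  have hn1 : (1:ℝ) ≤ n := by exact_mod_cast hn.1
  have hn0 : (0:ℝ) < n := by linarith
  have hlog0 : 0 ≤ Real.log n := Real.log_nonneg hn1
  have hL0 : 0 ≤ ArithmeticFunction.vonMangoldt n := ArithmeticFunction.vonMangoldt_nonneg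
  have hL1 : ArithmeticFunction.vonMangoldt n ≤ Real.log n := ArithmeticFunction.vonMangoldt_le_log
  have hs1 : 1 ≤ Real.sqrt n := Real.one_le_sqrt.2 hn1
  have hs0 : 0 < Real.sqrt n := by linarith
  have h1 : 0 ≤ 1 - Real.log n / X := by
    rw [sub_nonneg, div_le_one hX]
    exact hlog
  have h2 : 1 - Real.log n / X ≤ 1 := by
    have : 0 ≤ Real.log n / X := by positivity
    linarith
  have h3 : (1 - Real.log n / X) ^ 2 ≤ 1 := pow_le_one₀ h1 h2
  have h4 : ArithmeticFunction.vonMangoldt n / (Real.sqrt n * Real.log n) ≤ 1 := by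
    rcases eq_or_lt_of_le hlog0 with h | h
    · rw [← h]
      simp
    · rw [div_le_one (by positivity)]
      nlinarith
  have h40 : 0 ≤ ArithmeticFunction.vonMangoldt n / (Real.sqrt n * Real.log n) := by positivity
  refine ⟨by unfold cpr; positivity, ?_, fun h => ?_⟩
  · unfold cpr
    calc _ ≤ 1 / Real.pi * (1 * 1) := by
          apply mul_le_mul_of_nonneg_left _ (by positivity)
          exact mul_le_mul h4 h3 (sq_nonneg _) (by norm_num)
      _ = 1 / Real.pi := by ring
  · have hn2 : n ≠ 1 := by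
      rintro rfl
      apply h
      unfold cpr
      simp
    have hn3 : 2 ≤ n := by omega
    exact Real.log_le_log (by norm_num) (by exact_mod_cast hn3)

lemma cpr_cf {X : ℝ} (hX : 0 < X) (n : ℕ) : cpr X n = X / (2 * Real.pi) * (cf X n / Real.log n) := by
  have hpi := Real.pi_pos
  unfold cpr cf
  by_cases h : Real.log n = 0
  · rw [h]
    simp
  · by_cases hs : Real.sqrt n = 0
    · rw [hs]
      simp
    · field_simp

theorem Pr_cont (X : ℝ) : Continuous (Pr X) := by
  have : Pr X = fun t => ∑ n ∈ Finset.Icc 1 ⌊Real.exp X⌋₊, cpr X n * Real.sin (t * Real.log n) :=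
    funext fun t => Pr_eq X t
  rw [this]
  fun_prop

theorem Pr_bd : ∃ C : ℝ, 0 < C ∧ ∀ X y : ℝ, 1 / 2 ≤ X → |Pr X y| ≤ C * Real.exp X := by
  refine ⟨1, one_pos, fun X y hX => ?_⟩
  have hX0 : 0 < X := by linarith
  have hpi := Real.pi_gt_three
  rw [Pr_eq]
  refine (Finset.abs_sum_le_sum_abs _ _).trans ?_
  calc ∑ n ∈ Finset.Icc 1 ⌊Real.exp X⌋₊, |cpr X n * Real.sin (y * Real.log n)|
      ≤ ∑ n ∈ Finset.Icc 1 ⌊Real.exp X⌋₊, (1:ℝ) := by
        refine Finset.sum_le_sum fun n hn => ?_
        obtain ⟨h0, h1, -⟩ := cpr_bd hX0 hn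
        rw [abs_mul, abs_of_nonneg h0]
        have h2 : 1 / Real.pi ≤ 1 := by
          rw [div_le_one (by linarith)]
          linarith
        calc cpr X n * |Real.sin (y * Real.log n)| ≤ 1 * 1 :=
              mul_le_mul (h1.trans h2) (Real.abs_sin_le_one _) (abs_nonneg _) (by norm_num)
          _ = 1 := one_mul _
    _ = (⌊Real.exp X⌋₊ : ℝ) := by simp
    _ ≤ Real.exp X := Nat.floor_le (Real.exp_pos X).le
    _ = 1 * Real.exp X := (one_mul _).symm

theorem Pr_int : ∃ C : ℝ, 0 < C ∧ ∀ X t H : ℝ, 1 / 2 ≤ X → |∫ y in t..(t + H), Pr X y| ≤ C * Real.exp X := by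
  refine ⟨1, one_pos, fun X t H hX => ?_⟩
  have hX0 : 0 < X := by linarith
  have hpi := Real.pi_gt_three
  simp_rw [Pr_eq]
  rw [intervalIntegral.integral_finsetSum]
  · refine (Finset.abs_sum_le_sum_abs _ _).trans ?_
    calc ∑ n ∈ Finset.Icc 1 ⌊Real.exp X⌋₊, |∫ y in t..(t + H), cpr X n * Real.sin (y * Real.log n)|
        ≤ ∑ n ∈ Finset.Icc 1 ⌊Real.exp X⌋₊, (1:ℝ) := by
          refine Finset.sum_le_sum fun n hn => ?_
          obtain ⟨h0, h1, h2⟩ := cpr_bd hX0 hn
          by_cases hz : cpr X n = 0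
          · rw [hz]
            simp
          · have hL := h2 hz
            have hL2 := Real.log_two_gt_d9
            have hL0 : 0 < Real.log n := by linarith
            rw [intervalIntegral.integral_const_mul,
              intervalIntegral.integral_comp_mul_right (f := Real.sin) hL0.ne', _root_.integral_sin, smul_eq_mul,
              abs_mul, abs_mul, abs_of_nonneg h0, abs_of_pos (inv_pos.2 hL0)]
            have h3 : |Real.cos (t * Real.log n) - Real.cos ((t + H) * Real.log n)| ≤ 2 := by
              rw [abs_le]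
              constructor
              · linarith [Real.neg_one_le_cos (t * Real.log n), Real.cos_le_one ((t + H) * Real.log n)]
              · linarith [Real.cos_le_one (t * Real.log n), Real.neg_one_le_cos ((t + H) * Real.log n)]
            have h4 : (Real.log n)⁻¹ ≤ 3 / 2 := by
              rw [inv_le_comm₀ hL0 (by norm_num)]
              linarith
            have h5 : 1 / Real.pi ≤ 1 / 3 := one_div_le_one_div_of_le (by norm_num) hpi.le
            calc cpr X n * ((Real.log n)⁻¹ * |Real.cos (t * Real.log n) - Real.cos ((t + H) * Real.log n)|)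
                ≤ 1 / 3 * (3 / 2 * 2) := by
                  apply mul_le_mul (h1.trans h5) _ (by positivity) (by norm_num)
                  exact mul_le_mul h4 h3 (abs_nonneg _) (by norm_num)
              _ = 1 := by norm_num
      _ = (⌊Real.exp X⌋₊ : ℝ) := by simp
      _ ≤ Real.exp X := Nat.floor_le (Real.exp_pos X).le
      _ = 1 * Real.exp X := (one_mul _).symm
  · intro n _
    exact (by fun_prop : Continuous fun y : ℝ => cpr X n * Real.sin (y * Real.log n)).intervalIntegrable _ _

theorem Pr_sub {X : ℝ} (hX : 0 < X) (y₁ y₂ : ℝ) : Pr X y₂ - Pr X y₁ = X / (2 * Real.pi) * ∫ w in y₁..y₂, SS X w := by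
  simp_rw [Pr_eq, SS_eq]
  rw [intervalIntegral.integral_finsetSum, ← Finset.sum_sub_distrib, Finset.mul_sum]
  · refine Finset.sum_congr rfl fun n hn => ?_
    rw [cpr_cf hX]
    by_cases h : Real.log n = 0
    · have h1 : cf X n = 0 := by
        rw [Finset.mem_Icc] at hn
        have hn1 : (1:ℝ) ≤ n := by exact_mod_cast hn.1
        have hL1 : ArithmeticFunction.vonMangoldt n ≤ Real.log n := ArithmeticFunction.vonMangoldt_le_log
        have hL0 : 0 ≤ ArithmeticFunction.vonMangoldt n := ArithmeticFunction.vonMangoldt_nonneg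
        have hL2 : ArithmeticFunction.vonMangoldt n = 0 := by linarith
        unfold cf
        rw [hL2]
        simp
      rw [h1]
      simp
    · rw [intervalIntegral.integral_const_mul, intervalIntegral.integral_comp_mul_right (f := Real.cos) h,
        _root_.integral_cos, smul_eq_mul]
      field_simp
  · intro n _
    exact (by fun_prop : Continuous fun w : ℝ => cf X n * Real.cos (w * Real.log n)).intervalIntegrable _ _

theorem Pr_half (y : ℝ) : Pr (1 / 2) y = 0 := by
  have h1 : ⌊Real.exp (1 / 2)⌋₊ = 1 := by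
    rw [Nat.floor_eq_iff (Real.exp_pos _).le]
    constructor
    · have := Real.add_one_le_exp (1 / 2 : ℝ)
      push_cast
      linarith
    · have h2 : Real.exp (1 / 2) ^ 2 < 2 ^ 2 := by
        rw [← Real.exp_nat_mul]
        have := Real.exp_one_lt_d9
        norm_num
        linarith
      have h3 := lt_of_pow_lt_pow_left₀ 2 (by norm_num) h2
      push_cast
      linarith
  rw [Pr_eq, h1]
  simp

theorem pr_mean : ∃ κ c0 T0 : ℝ, 0 < κ ∧ ∀ T, T0 ≤ T → ∀ c, Adm c0 T c → ∀ v : ℝ, v ^ 2 = c / 100 → 0 < v →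
    ∀ τ e : ℝ, e = 1 ∨ e = -1 →
    Integrable (fun t => wt T c v τ t * Pr (XX T c) (t + 2 * e / XX T c)) ∧
    κ * √c * VV T c v ≤ e * ∫ t, wt T c v τ t * Pr (XX T c) (t + 2 * e / XX T c) := by
  obtain ⟨c2, T2, hR2⟩ := Pool.Agent.Helper60.UG.rr_bd
  obtain ⟨c3, T3, hR3⟩ := Pool.Agent.Helper25.UG.PR_facts
  obtain ⟨c4, T4, hR4⟩ := Pool.Agent.Helper90.UG.WP_bd
  obtain ⟨c9, T9, hR9⟩ := Pool.Agent.Helper60.UG.ecos
  have hpi := Real.pi_pos
  refine ⟨1 / (3200 * Real.pi), max (max c2 c3) (max (max c4 c9) 100),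
    max (max T2 T3) (max (max T4 T9) (max (Real.exp (Real.exp 1)) 4194304)), by positivity, ?_⟩
  intro T hT c hadm v hv hv0 τ e he
  simp only [max_le_iff] at hT
  obtain ⟨⟨hT2, hT3⟩, ⟨hT4, hT9⟩, hTe, hTb⟩ := hT
  unfold Adm at hadm
  obtain ⟨hc0, hadm⟩ := hadm
  simp only [max_le_iff] at hc0
  obtain ⟨⟨hc2, hc3⟩, ⟨hc4, hc9⟩, hc100⟩ := hc0
  obtain ⟨hT1, hlog1, hX16, hXlog, hXe, hcX⟩ := adm_facts hTe (by linarith) hadm
  have hT0 : 0 < T := by linarith
  have hV := (hR2 T hT2 c ⟨hc2, hadm⟩ v hv 0).2
  obtain ⟨hP, hP1, -⟩ := hR3 T hT3 c ⟨hc3, hadm⟩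
  have h4 := hR4 T hT4 c ⟨hc4, hadm⟩ v hv
  have h9 := hR9 T hT9 c ⟨hc9, hadm⟩ v hv τ
  set X := XX T c with hXdef
  have hX0 : 0 < X := by linarith
  have he2 : e ^ 2 = 1 := by rcases he with h | h <;> rw [h] <;> norm_num
  have heabs : |e| = 1 := by rcases he with h | h <;> rw [h] <;> norm_num
  obtain ⟨CP, -, hPb⟩ := Pr_bd
  refine ⟨int_wt hT0 ((Pr_cont X).comp (by fun_prop : Continuous fun t : ℝ => t + 2 * e / X))
    (C := CP * Real.exp X) (fun t => hPb X _ (by linarith)), ?_⟩
  set N := ⌊Real.exp X⌋₊ with hN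
  have hNle : (N : ℝ) ≤ T ^ (1 / 16 : ℝ) := (Nat.floor_le (Real.exp_pos X).le).trans hXe
  have hvc : v = √c / 10 := by
    have h1 : √c / 10 = √(v ^ 2) := by
      rw [hv, Real.sqrt_div (by linarith)]
      congr 1
      rw [show (100:ℝ) = 10 ^ 2 by norm_num, Real.sqrt_sq (by norm_num)]
    rw [h1, Real.sqrt_sq hv0.le]
  have hsc : 10 ≤ √c := Real.le_sqrt_of_sq_le (by linarith)
  set E : ℕ → ℝ := fun n => ∫ t, wt T c v τ t * Real.sin ((t + 2 * e / X) * Real.log n) with hE
  have hint : ∫ t, wt T c v τ t * Pr X (t + 2 * e / X) = ∑ n ∈ Finset.Icc 1 N, cpr X n * E n := by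
    simp_rw [Pr_eq, Finset.mul_sum]
    rw [integral_finsetSum]
    · refine Finset.sum_congr rfl fun n _ => ?_
      rw [hE, ← integral_const_mul]
      congr 1
      ext t
      ring
    · intro n _
      exact int_wt (T := T) (c := c) (v := v) (τ := τ) hT0
        (f := fun t => cpr X n * Real.sin ((t + 2 * e / X) * Real.log n)) (by fun_prop)
        (C := |cpr X n|) (fun t => by
          rw [abs_mul]
          exact mul_le_of_le_one_right (abs_nonneg _) (Real.abs_sin_le_one _))
  rw [hint, Finset.mul_sum]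
  -- pointwise
  have hpt : ∀ n ∈ Finset.Icc 1 N,
      cpr X n * (if n ∈ PR T c then WP T c v n / √n * Real.sin (2 * Real.log n / X) else 0) - 1 / Real.pi / T ≤
      e * (cpr X n * E n) := by
    intro n hn
    obtain ⟨hc0', hc1', hc2'⟩ := cpr_bd hX0 hn
    by_cases hz : cpr X n = 0
    · rw [hz]
      simp only [zero_mul, mul_zero, zero_sub]
      have : 0 ≤ 1 / Real.pi / T := by positivity
      linarith
    · have hL2 := hc2' hz
      have hlog2 := Real.log_two_gt_d9
      have hL0 : 0 < Real.log n := by linarith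
      have hΛ : ArithmeticFunction.vonMangoldt n ≠ 0 := by
        intro h
        apply hz
        unfold cpr
        rw [h]
        simp
      have hpp : IsPrimePow n := ArithmeticFunction.vonMangoldt_ne_zero_iff.1 hΛ
      have hle : (n : ℝ) ≤ Real.exp X := (Nat.le_floor_iff (Real.exp_pos X).le).1 (Finset.mem_Icc.1 hn).2
      have h10 := h9 (2 * e / X - Real.pi / (2 * Real.log n)) n hpp hle
      have h11 : ∀ t : ℝ, Real.cos ((t + (2 * e / X - Real.pi / (2 * Real.log n))) * Real.log n) =
          Real.sin ((t + 2 * e / X) * Real.log n) := by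
        intro t
        rw [← Real.cos_sub_pi_div_two]
        congr 1
        field_simp
        ring
      have h12 : Real.cos ((2 * e / X - Real.pi / (2 * Real.log n)) * Real.log n) =
          e * Real.sin (2 * Real.log n / X) := by
        have h13 : (2 * e / X - Real.pi / (2 * Real.log n)) * Real.log n =
            e * (2 * Real.log n / X) - Real.pi / 2 := by
          field_simp
        rw [h13, Real.cos_sub_pi_div_two]
        rcases he with h | h
        · rw [h, one_mul, one_mul]
        · rw [h, neg_one_mul, neg_one_mul, Real.sin_neg]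
      simp_rw [h11] at h10
      rw [h12] at h10
      set I := (if n ∈ PR T c then WP T c v n / √n * Real.sin (2 * Real.log n / X) else 0) with hI
      have hI2 : (if n ∈ PR T c then WP T c v n / √n * (e * Real.sin (2 * Real.log n / X)) else 0) = e * I := by
        rw [hI]
        split_ifs
        · ring
        · simp
      rw [hI2] at h10
      have h14 : |e * E n - I| ≤ 1 / T := by
        have h15 : e * E n - I = e * (E n - e * I) := by
          have : e * (e * I) = e ^ 2 * I := by ring
          rw [mul_sub, this, he2, one_mul]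
        rw [h15, abs_mul, heabs, one_mul]
        exact h10
      have h16 : |cpr X n * (e * E n - I)| ≤ 1 / Real.pi / T := by
        rw [abs_mul, abs_of_nonneg hc0']
        calc cpr X n * |e * E n - I| ≤ 1 / Real.pi * (1 / T) :=
              mul_le_mul hc1' h14 (abs_nonneg _) (by positivity)
          _ = 1 / Real.pi / T := by ring
      have h17 := neg_abs_le (cpr X n * (e * E n - I))
      have h18 : e * (cpr X n * E n) = cpr X n * I + cpr X n * (e * E n - I) := by ring
      rw [h18]
      linarith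
  have hsum := Finset.sum_le_sum hpt
  rw [Finset.sum_sub_distrib, Finset.sum_const, Nat.card_Icc, Nat.add_sub_cancel, nsmul_eq_mul] at hsum
  refine le_trans ?_ hsum
  -- main term
  have hmain : v * VV T c v / (160 * Real.pi) ≤
      ∑ n ∈ Finset.Icc 1 N, cpr X n * (if n ∈ PR T c then WP T c v n / √n * Real.sin (2 * Real.log n / X) else 0) := by
    have hsub : PR T c ⊆ Finset.Icc 1 N := by
      intro p hp
      obtain ⟨hpp, -, -, hpl⟩ := hP p hp
      have hp0 : (0:ℝ) < p := by exact_mod_cast hpp.pos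
      rw [Finset.mem_Icc]
      refine ⟨hpp.one_le, ?_⟩
      rw [hN, Nat.le_floor_iff (Real.exp_pos X).le, ← Real.log_le_iff_le_exp hp0]
      linarith
    have h14 : ∑ n ∈ Finset.Icc 1 N, cpr X n *
          (if n ∈ PR T c then WP T c v n / √n * Real.sin (2 * Real.log n / X) else 0) =
        ∑ p ∈ PR T c, cpr X p * (WP T c v p / √p * Real.sin (2 * Real.log p / X)) := by
      symm
      rw [← Finset.sum_subset hsub]
      · refine Finset.sum_congr rfl fun p hp => ?_
        rw [if_pos hp]
      · intro n _ hn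
        rw [if_neg hn, mul_zero]
    rw [h14]
    have h15 : ∀ p ∈ PR T c, v * VV T c v / (80 * Real.pi) * (1 / p : ℝ) ≤
        cpr X p * (WP T c v p / √p * Real.sin (2 * Real.log p / X)) := by
      intro p hp
      obtain ⟨hpp, -, hpg, hpl⟩ := hP p hp
      have hp0 : (0:ℝ) < p := by exact_mod_cast hpp.pos
      have hs0 : 0 < √(p:ℝ) := Real.sqrt_pos.2 hp0
      have hss : √(p:ℝ) * √(p:ℝ) = p := Real.mul_self_sqrt hp0.le
      have hL0 : 0 < Real.log p := by linarith
      have h16 : 1 / (16 * Real.pi * √(p:ℝ)) ≤ cpr X p := by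
        unfold cpr
        rw [ArithmeticFunction.vonMangoldt_apply_prime hpp]
        have h17 : 1 / 4 ≤ 1 - Real.log p / X := by
          have : Real.log p / X ≤ 3 / 4 := by
            rw [div_le_iff₀ hX0]
            exact hpl
          linarith
        have h18 : (1 / 16 : ℝ) ≤ (1 - Real.log p / X) ^ 2 := by nlinarith
        have h19 : Real.log p / (√(p:ℝ) * Real.log p) = 1 / √(p:ℝ) := by
          field_simp
        rw [h19]
        calc 1 / (16 * Real.pi * √(p:ℝ)) = 1 / Real.pi * (1 / √(p:ℝ) * (1 / 16)) := by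
              field_simp
          _ ≤ _ := by
              apply mul_le_mul_of_nonneg_left _ (by positivity)
              exact mul_le_mul_of_nonneg_left h18 (by positivity)
      have h19 : 2 / 5 ≤ Real.sin (2 * Real.log p / X) := by
        have hpi3 := Real.pi_gt_three
        have h20 : 1 / 2 ≤ 2 * Real.log p / X := by
          rw [le_div_iff₀ hX0]
          linarith
        have h21 : 2 * Real.log p / X ≤ 3 / 2 := by
          rw [div_le_iff₀ hX0]
          linarith
        have h22 : Real.sin (1 / 2) ≤ Real.sin (2 * Real.log p / X) :=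
          Real.sin_le_sin_of_le_of_le_pi_div_two (by linarith) (by linarith) h20
        have h23 := Real.sin_gt_sub_cube (x := 1 / 2) (by norm_num)
        norm_num at h23 h22 ⊢
        linarith
      have h20 : v / 2 * VV T c v ≤ WP T c v p := by
        have h21 := (h4 p hp).1
        have h22 : v * (v / 2 * VV T c v) ≤ v * WP T c v p := by
          calc v * (v / 2 * VV T c v) = v ^ 2 / 2 * VV T c v := by ring
            _ ≤ _ := h21
        exact le_of_mul_le_mul_left h22 hv0
      have h21 : 0 ≤ v / 2 * VV T c v := by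
        have : 0 ≤ VV T c v := by linarith
        positivity
      calc v * VV T c v / (80 * Real.pi) * (1 / p : ℝ) =
            (1 / (16 * Real.pi * √(p:ℝ))) * (((v / 2 * VV T c v) / √(p:ℝ)) * (2 / 5)) := by
            have h22 : (1 / p : ℝ) = 1 / (√(p:ℝ) * √(p:ℝ)) := by rw [hss]
            rw [h22]
            field_simp
            ring
        _ ≤ _ := by
            have h23 : 0 < 1 / (16 * Real.pi * √(p:ℝ)) := by positivity
            apply mul_le_mul h16 _ (by positivity) (by linarith)
            exact mul_le_mul (div_le_div_of_nonneg_right h20 hs0.le) h19 (by norm_num)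
              (div_nonneg (h21.trans h20) hs0.le)
    have hVV : 0 ≤ VV T c v := by linarith
    calc v * VV T c v / (160 * Real.pi) = v * VV T c v / (80 * Real.pi) * (1 / 2) := by
          field_simp
          ring
      _ ≤ v * VV T c v / (80 * Real.pi) * ∑ p ∈ PR T c, (1 / p : ℝ) := by
          apply mul_le_mul_of_nonneg_left hP1
          positivity
      _ = ∑ p ∈ PR T c, v * VV T c v / (80 * Real.pi) * (1 / p : ℝ) := by rw [Finset.mul_sum]
      _ ≤ _ := Finset.sum_le_sum h15
  have herr : (N : ℝ) * (1 / Real.pi / T) ≤ √c * VV T c v / (3200 * Real.pi) := by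
    have hsq : √T * √T = T := Real.mul_self_sqrt hT0.le
    have hsq2 : 2048 ≤ √T := Real.le_sqrt_of_sq_le (by linarith)
    have hN2 : (N : ℝ) ≤ √T := by
      rw [Real.sqrt_eq_rpow]
      exact hNle.trans (Real.rpow_le_rpow_of_exponent_le hT1 (by norm_num))
    have h24 : (N : ℝ) / T ≤ 1 / 2048 := by
      rw [div_le_div_iff₀ hT0 (by norm_num)]
      nlinarith
    calc (N : ℝ) * (1 / Real.pi / T) = 1 / Real.pi * ((N : ℝ) / T) := by ring
      _ ≤ 1 / Real.pi * (1 / 320) := by
          apply mul_le_mul_of_nonneg_left _ (by positivity)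
          linarith
      _ = 10 * 1 / (3200 * Real.pi) := by
          field_simp
          norm_num
      _ ≤ √c * VV T c v / (3200 * Real.pi) := by
          apply div_le_div_of_nonneg_right _ (by positivity)
          exact mul_le_mul hsc hV (by norm_num) (by positivity)
  have h25 : 1 / (3200 * Real.pi) * √c * VV T c v = v * VV T c v / (160 * Real.pi) - √c * VV T c v / (3200 * Real.pi) := by
    rw [hvc]
    field_simp
    ring
  rw [h25]
  linarith

end Pool.Agent.Helper49.SO
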